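import Pool.Agent.H56.DtN.Freq

set_option autoImplicit false
set_option linter.unusedSectionVars false

namespace Pool.Agent.H56.DtN

variable {R T α : Type*} [CommRing R] [Algebra ℂ R] [Fintype α] {A : ℕ → Type*}
    [∀ q, AddCommGroup (A q)] [∀ q, Module ℂ (A q)] [∀ q, Module R (A q)]
    [∀ q, IsScalarTower ℂ R (A q)]

/-- action of a word -/
def Calc.wa (c : Calc R T α A) (q : ℕ) : List (Letter R T) → (A q →ₗ[ℂ] A q)
  | [] => LinearMap.id
  | l :: W => c.act l q ∘ₗ Calc.wa c q W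

namespace Sys

variable {c : Calc R T α A} {p : ℕ} (s : Sys c p)

/-- commutators followed by words -/
def wset (β n : ℕ) : Set (A p →ₗ[ℂ] A (p + 1)) :=
  {Z | ∃ K' W' : List (Letter R T), β ≤ cnt K' ∧ W'.length ≤ n ∧ Z = s.FK K' ∘ₗ c.wa p W'}

lemma cnt_le_cons (D : Letter R T) (K : List (Letter R T)) : cnt K ≤ cnt (D :: K) := by
  cases D <;> simp [cnt]

lemma wa_FK (K W : List (Letter R T)) :
    c.wa (p + 1) W ∘ₗ s.FK K ∈ Submodule.span ℂ (s.wset (cnt K) W.length) := by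
  induction W with
  | nil => exact Submodule.subset_span ⟨K, [], le_rfl, by simp, rfl⟩
  | cons l W ih =>
    have h1 : c.wa (p + 1) (l :: W) ∘ₗ s.FK K = c.act l (p + 1) ∘ₗ (c.wa (p + 1) W ∘ₗ s.FK K) :=
      rfl
    rw [h1]
    generalize c.wa (p + 1) W ∘ₗ s.FK K = Z at ih
    induction ih using Submodule.span_induction with
    | mem Z hZ =>
      obtain ⟨K', W', hK', hW', rfl⟩ := hZ
      have h2 : c.act l (p + 1) ∘ₗ (s.FK K' ∘ₗ c.wa p W')
          = s.FK (l :: K') ∘ₗ c.wa p W' + s.FK K' ∘ₗ c.wa p (l :: W') := by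
        ext u
        simp only [LinearMap.comp_apply, LinearMap.add_apply, FK_cons, Calc.wa]
        abel
      rw [h2]
      refine add_mem (Submodule.subset_span ⟨l :: K', W', ?_, ?_, rfl⟩)
        (Submodule.subset_span ⟨K', l :: W', hK', ?_, rfl⟩)
      · exact hK'.trans (cnt_le_cons l K')
      · simp only [List.length_cons]; omega
      · simp only [List.length_cons]; omega
    | zero => rw [LinearMap.comp_zero]; exact zero_mem _
    | add Z Z' _ _ h h' => rw [LinearMap.comp_add]; exact add_mem h h'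
    | smul z Z _ h => rw [LinearMap.comp_smul]; exact Submodule.smul_mem _ _ h

end Sys

namespace Freq

variable {c : Calc R T α A} {p : ℕ} {s : Sys c p} {Ξ J : Type*} [Fintype J] [DecidableEq J]
    (e : Freq s Ξ J)

lemma PG_claim (K : List (Letter R T)) {q' : ℕ} (P : A (p + 1) →ₗ[ℂ] A q') (hP : c.FO P)
    {k : ℕ} {g : Ξ → A p} (h : e.PG (e.UU : Set (A p)) k g) :
    e.Gr (k + 2 - cnt K) (fun ξ => s.N q' (P (s.FK K (g ξ)))) := by
  induction h with
  | base w hw =>
    have := (e.claim (cnt K)).2 K rfl w hw P hP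
    simpa using this
  | add k g g' _ _ h h' =>
    refine e.Gr_le (fun ξ => ?_) (e.Gr_add h h')
    rw [map_add, map_add]; exact map_add_le_add _ _ _
  | mul k j g _ h =>
    obtain ⟨C, hC0, hC⟩ := h
    refine ⟨2 * Real.pi * C, by positivity, fun ξ => ?_⟩
    show s.N q' (P (s.FK K (e.fr ξ j • g ξ))) ≤ _
    rw [map_smul, map_smul, map_smul_eq_mul, e.norm_fr]
    have h1 : |e.co ξ j| ≤ e.br ξ := (e.co_le ξ j).trans (by unfold br; linarith)
    have h2 := e.br_pos ξ
    have h4 : (((k + 1 : ℕ) : ℤ) + 2 - cnt K) = (k + 2 - cnt K) + 1 := by push_cast; ring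
    rw [h4, zpow_add_one₀ h2.ne']
    calc 2 * Real.pi * |e.co ξ j| * s.N q' (P (s.FK K (g ξ)))
        ≤ 2 * Real.pi * e.br ξ * (C * e.br ξ ^ ((k : ℤ) + 2 - cnt K)) := by
          have := s.N0 q' (P (s.FK K (g ξ)))
          have h3 := hC ξ
          gcongr
      _ = _ := by ring
  | up k g _ h => exact e.Gr_mono (by push_cast; omega) h

lemma PG_wa (W : List (Letter R T)) (U : A p) (hU : U ∈ e.UU) :
    e.PG (e.UU : Set (A p)) W.length (fun ξ => c.wa p W (e.E ξ • U)) := by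
  induction W with
  | nil => exact PG.base U hU
  | cons l W ih => exact e.PG_act l ih

theorem words (K W : List (Letter R T)) {q' : ℕ} (P : A (p + 1) →ₗ[ℂ] A q') (hP : c.FO P)
    (U : A p) (hU : U ∈ e.UU) :
    e.Gr (W.length + 2 - cnt K)
      (fun ξ => s.N q' (P (c.wa (p + 1) W (s.FK K (e.E ξ • U))))) := by
  have h1 := s.wa_FK K W
  have h2 : ∀ Z ∈ Submodule.span ℂ (s.wset (cnt K) W.length),
      e.Gr (W.length + 2 - cnt K) (fun ξ => s.N q' (P (Z (e.E ξ • U)))) := by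
    intro Z hZ
    induction hZ using Submodule.span_induction with
    | mem Z hZ =>
      obtain ⟨K', W', hK', hW', rfl⟩ := hZ
      refine e.Gr_mono ?_ (e.PG_claim K' P hP (e.PG_wa W' U hU))
      omega
    | zero => simpa using e.Gr_zero _
    | add Z Z' _ _ h h' =>
      refine e.Gr_le (fun ξ => ?_) (e.Gr_add h h')
      rw [LinearMap.add_apply, map_add]; exact map_add_le_add _ _ _
    | smul z Z _ h =>
      refine e.Gr_le (fun ξ => le_of_eq ?_) (e.Gr_mul ‖z‖ (fun ξ => s.N0 _ _) h)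
      rw [LinearMap.smul_apply, map_smul, map_smul_eq_mul]
  exact h2 _ h1

end Freq

/-- test functions -/
structure Tst {c : Calc R T α A} {p : ℕ} (s : Sys c p) (St J : Type*) [Fintype J] where
  /-- composition with the map b -/
  E : St → R
  /-- partial derivatives -/
  par : J → St → St
  /-- coordinates -/
  b : J → R
  /-- norms -/
  pp : ℕ → St → ℝ
  E_X : ∀ a σ, c.X a (E σ) = ∑ j, c.X a (b j) * E (par j σ)
  E_T : ∀ V σ, c.dT V (E σ) = ∑ j, c.dT V (b j) * E (par j σ)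
  N_E : ∀ q σ (w : A q), s.N q (E σ • w) ≤ pp 0 σ * s.N q w
  pp_par : ∀ r j σ, pp r (par j σ) ≤ pp (r + 1) σ
  pp_mono : ∀ r σ, pp r σ ≤ pp (r + 1) σ
  pp0 : ∀ r σ, 0 ≤ pp r σ

namespace Tst

variable {c : Calc R T α A} {p : ℕ} {s : Sys c p} {St J : Type*} [Fintype J]
    (t : Tst s St J)

/-- growth bounded by the norm of order m -/
def Gr (m : ℕ) (g : St → ℝ) : Prop := ∃ C : ℝ, 0 ≤ C ∧ ∀ σ, g σ ≤ C * t.pp m σ

lemma Gr_mono {m m' : ℕ} (h : m ≤ m') {g : St → ℝ} (hg : t.Gr m g) : t.Gr m' g := by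
  induction h with
  | refl => exact hg
  | step _ ih =>
    obtain ⟨C, hC0, hC⟩ := ih
    exact ⟨C, hC0, fun σ => (hC σ).trans (mul_le_mul_of_nonneg_left (t.pp_mono _ σ) hC0)⟩

lemma Gr_le {m : ℕ} {g g' : St → ℝ} (h : ∀ σ, g σ ≤ g' σ) (hg : t.Gr m g') : t.Gr m g := by
  obtain ⟨C, hC0, hC⟩ := hg
  exact ⟨C, hC0, fun σ => (h σ).trans (hC σ)⟩

lemma Gr_add {m : ℕ} {g g' : St → ℝ} (hg : t.Gr m g) (hg' : t.Gr m g') :
    t.Gr m (fun σ => g σ + g' σ) := by
  obtain ⟨C, hC0, hC⟩ := hg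
  obtain ⟨C', hC'0, hC'⟩ := hg'
  refine ⟨C + C', by positivity, fun σ => ?_⟩
  rw [add_mul]; exact add_le_add (hC σ) (hC' σ)

lemma Gr_mul {m : ℕ} {g : St → ℝ} (a : ℝ) (h0 : ∀ σ, 0 ≤ g σ) (hg : t.Gr m g) :
    t.Gr m (fun σ => a * g σ) := by
  obtain ⟨C, hC0, hC⟩ := hg
  refine ⟨|a| * C, by positivity, fun σ => ?_⟩
  calc a * g σ ≤ |a| * g σ := mul_le_mul_of_nonneg_right (le_abs_self a) (h0 σ)
    _ ≤ |a| * (C * t.pp m σ) := mul_le_mul_of_nonneg_left (hC σ) (abs_nonneg _)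
    _ = _ := by ring

lemma Gr_sum {ι : Type*} {m : ℕ} (S : List ι) (g : ι → St → ℝ) (h : ∀ i ∈ S, t.Gr m (g i)) :
    t.Gr m (fun σ => (S.map fun i => g i σ).sum) := by
  induction S with
  | nil => exact ⟨0, le_rfl, fun σ => by simp⟩
  | cons i S ih =>
    have h1 := t.Gr_add (h i (by simp)) (ih fun j hj => h j (by simp [hj]))
    simpa using h1

lemma Gr_zero (m : ℕ) : t.Gr m (fun _ => (0 : ℝ)) := ⟨0, le_rfl, fun σ => by simp⟩

/-- forms depending on a test function through finitely many derivatives -/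
inductive PG {q : ℕ} : ℕ → (St → A q) → Prop
  | base (w : A q) : PG 0 (fun σ => t.E σ • w)
  | add (k : ℕ) (g g' : St → A q) (h : PG k g) (h' : PG k g') : PG k (fun σ => g σ + g' σ)
  | par (k : ℕ) (j : J) (g : St → A q) (h : PG k g) : PG (k + 1) (fun σ => g (t.par j σ))
  | up (k : ℕ) (g : St → A q) (h : PG k g) : PG (k + 1) g

lemma PG_bound {q : ℕ} {k : ℕ} {g : St → A q} (h : t.PG k g) :
    t.Gr k (fun σ => s.N q (g σ)) := by
  induction h with
  | base w => exact ⟨s.N q w, s.N0 _ _, fun σ => by rw [mul_comm]; exact t.N_E q σ w⟩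
  | add k g g' _ _ h h' => exact t.Gr_le (fun σ => map_add_le_add _ _ _) (t.Gr_add h h')
  | par k j g _ h =>
    obtain ⟨C, hC0, hC⟩ := h
    exact ⟨C, hC0, fun σ => (hC (t.par j σ)).trans
      (mul_le_mul_of_nonneg_left (t.pp_par _ _ σ) hC0)⟩
  | up k g _ h => exact t.Gr_mono (by omega) h

lemma PG_sum {q : ℕ} {ι : Type*} (I : Finset ι) (k : ℕ) (g : ι → St → A q)
    (g0 : St → A q) (h0 : t.PG k g0) (h : ∀ i ∈ I, t.PG k (g i)) :
    t.PG k (fun σ => g0 σ + ∑ i ∈ I, g i σ) := by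
  classical
  induction I using Finset.induction_on with
  | empty => simpa using h0
  | insert i I hi ih =>
    have h1 := PG.add k _ _ (ih fun j hj => h j (by simp [hj])) (h i (by simp))
    have h2 : (fun σ => g0 σ + ∑ j ∈ insert i I, g j σ)
        = fun σ => (g0 σ + ∑ j ∈ I, g j σ) + g i σ := by
      ext σ; rw [Finset.sum_insert hi]; abel
    rw [h2]; exact h1

lemma PG_FO {q q' : ℕ} {P : A q →ₗ[ℂ] A q'} (hP : c.FO P) {k : ℕ}
    {g : St → A q} (h : t.PG k g) : t.PG (k + 1) (fun σ => P (g σ)) := by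
  induction h with
  | base w =>
    obtain ⟨Q, hQ, hP⟩ := hP
    have h1 : (fun σ => P (t.E σ • w)) = fun σ => t.E σ • P w
        + ∑ x : α × J, (t.E (t.par x.2 σ) • (c.X x.1 (t.b x.2) • Q x.1 w)) := by
      ext σ
      rw [hP, Fintype.sum_prod_type]
      congr 1
      refine Finset.sum_congr rfl fun a _ => ?_
      rw [t.E_X, Finset.sum_smul]
      refine Finset.sum_congr rfl fun j _ => ?_
      rw [mul_comm, mul_smul]
    rw [h1]
    refine t.PG_sum _ _ _ _ (PG.up _ _ (PG.base _)) fun x _ => ?_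
    exact PG.par 0 x.2 _ (PG.base _)
  | add k g g' _ _ h h' =>
    have := PG.add _ _ _ h h'
    simpa only [map_add] using this
  | par k j g _ h => exact PG.par _ j _ h
  | up k g _ h => exact PG.up _ _ h

lemma PG_RL {q q' : ℕ} {P : A q →ₗ[ℂ] A q'} (hP : RL R P) {k : ℕ}
    {g : St → A q} (h : t.PG k g) : t.PG k (fun σ => P (g σ)) := by
  induction h with
  | base w =>
    have := PG.base (t := t) (P w)
    simpa only [hP (t.E _) w] using this
  | add k g g' _ _ h h' =>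
    have := PG.add _ _ _ h h'
    simpa only [map_add] using this
  | par k j g _ h => exact PG.par _ j _ h
  | up k g _ h => exact PG.up _ _ h

lemma PG_act {q : ℕ} (D : Letter R T) {k : ℕ} {g : St → A q} (h : t.PG k g) :
    t.PG (k + 1) (fun σ => c.act D q (g σ)) := by
  cases D with
  | fn b =>
    refine PG.up _ _ (t.PG_RL (P := c.act (Letter.fn b) q) (fun b' w => ?_) h)
    simp only [Calc.act_fn, mulL_apply]; rw [smul_comm]
  | vf V => exact t.PG_FO (c.FO_L V q) h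

lemma FK_gr (K : List (Letter R T)) {k : ℕ} {g : St → A p} (hg : t.PG k g) :
    t.Gr (k + 1) (fun σ => s.N (p + 1) (s.FK K (g σ))) := by
  obtain ⟨S, C, hC0, hC⟩ := s.Bd_FK K
  have h1 : t.Gr (k + 1) (fun σ => (S.map fun b => s.N (p + 1) (s.d (b • g σ))).sum) := by
    refine t.Gr_sum S _ fun b _ => ?_
    refine t.PG_bound (t.PG_FO s.d_FO (t.PG_RL (P := mulL b p) (fun b' w => ?_) hg))
    simp only [mulL_apply]; rw [smul_comm]
  exact t.Gr_le (fun σ => hC _) (t.Gr_mul C (fun σ => s.sum_nonneg S _) h1)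

lemma GK_PG (K : List (Letter R T)) {k : ℕ} {g : St → A p} (hg : t.PG k g) :
    t.PG (k + 1) (fun σ => c.adK s.d K (g σ)) := by
  by_cases hK : K = []
  · subst hK; exact t.PG_FO s.d_FO hg
  · exact PG.up _ _ (t.PG_RL (s.GK_RL K hK) hg)

lemma crude (n : ℕ) : ∀ K : List (Letter R T), K.length = n → ∀ (q' : ℕ)
    (P : A (p + 1) →ₗ[ℂ] A q'), c.FO P → ∀ (k : ℕ) (g : St → A p), t.PG k g →
    t.Gr (k + 2) (fun σ => s.N q' (P (s.FK K (g σ)))) := by
  induction n using Nat.strong_induction_on with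
  | _ n ih =>
    intro K hKn q' P hP k g hg
    have heq : ∀ (q'' : ℕ) (P₀ : A (p + 1) →ₗ[ℂ] A q''), c.FO P₀ → (∀ u, P₀ (s.F u) = 0) →
        t.Gr (k + 2) (fun σ => s.N q'' (P₀ (s.FK K (g σ)))) := by
      intro q'' P₀ hP₀ h0
      have h1 := s.eq_FK P₀ hP₀ h0 K
      have h2 : ∀ Z ∈ Submodule.span ℂ (s.eqSet K q''),
          t.Gr (k + 2) (fun σ => s.N q'' (Z (g σ))) := by
        intro Z hZ
        induction hZ using Submodule.span_induction with
        | mem Z hZ =>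
          obtain ⟨P', K', hlen, hor, rfl⟩ := hZ
          rcases hor with ⟨hP', hc⟩ | ⟨hP', hc⟩
          · exact ih K'.length (by omega) K' rfl q'' P' hP' k g hg
          · exact ih K'.length (by omega) K' rfl q'' P' (c.FO_of_RL hP') k g hg
        | zero => simpa using t.Gr_zero _
        | add Z Z' _ _ h h' =>
          exact t.Gr_le (fun σ => by
            rw [LinearMap.add_apply]; exact map_add_le_add _ _ _) (t.Gr_add h h')
        | smul z Z _ h =>
          refine t.Gr_le (fun σ => le_of_eq ?_) (t.Gr_mul ‖z‖ (fun σ => s.N0 _ _) h)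
          rw [LinearMap.smul_apply, map_smul_eq_mul]
      exact h2 _ h1
    have hd := heq _ s.d' s.d'_FO s.d'_F
    have hδ := heq _ s.δ s.δ_FO s.δ_F
    have hF : t.Gr (k + 2) (fun σ => s.N (p + 1) (s.FK K (g σ))) :=
      t.Gr_mono (by omega) (t.FK_gr K hg)
    have hG : t.Gr (k + 2) (fun σ => s.N (p + 1) (c.adK s.d K (g σ))) :=
      t.Gr_mono (by omega) (t.PG_bound (t.GK_PG K hg))
    have hPG : ∀ (q'' : ℕ) (P₀ : A (p + 1) →ₗ[ℂ] A q''), c.FO P₀ →
        t.Gr (k + 2) (fun σ => s.N q'' (P₀ (c.adK s.d K (g σ)))) :=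
      fun q'' P₀ hP₀ => t.PG_bound (t.PG_FO hP₀ (t.GK_PG K hg))
    obtain ⟨C, hC⟩ := s.gaffney P hP
    have hsub : ∀ (q'' : ℕ) (x y : A q''), s.N q'' (x - y) ≤ s.N q'' x + s.N q'' y :=
      fun q'' x y => map_sub_le_add _ _ _
    have htot := t.Gr_add (t.Gr_mul |C| (fun σ => by
      have h1 := s.N0 _ (s.d' (s.FK K (g σ)))
      have h2 := s.N0 _ (s.d' (c.adK s.d K (g σ)))
      have h3 := s.N0 _ (s.δ (s.FK K (g σ)))
      have h4 := s.N0 _ (s.δ (c.adK s.d K (g σ)))
      have h5 := s.N0 _ (s.FK K (g σ))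
      have h6 := s.N0 _ (c.adK s.d K (g σ))
      positivity) (t.Gr_add (t.Gr_add (t.Gr_add hd (hPG _ s.d' s.d'_FO))
        (t.Gr_add hδ (hPG _ s.δ s.δ_FO))) (t.Gr_add hF hG))) (hPG _ P hP)
    refine t.Gr_le (fun σ => ?_) htot
    set u := g σ
    have h1 : P (s.FK K u) = P (s.FK K u - c.adK s.d K u) + P (c.adK s.d K u) := by
      rw [map_sub]; abel
    rw [h1]
    refine (map_add_le_add _ _ _).trans (add_le_add ?_ le_rfl)
    refine (hC _ (s.FK_sub K u)).trans ?_
    refine (mul_le_mul_of_nonneg_right (le_abs_self C) ?_).trans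
      (mul_le_mul_of_nonneg_left ?_ (abs_nonneg _))
    · have h1 := s.N0 _ (s.d' (s.FK K u - c.adK s.d K u))
      have h2 := s.N0 _ (s.δ (s.FK K u - c.adK s.d K u))
      have h3 := s.N0 _ (s.FK K u - c.adK s.d K u)
      positivity
    · rw [map_sub s.d', map_sub s.δ]
      exact add_le_add (add_le_add (hsub _ _ _) (hsub _ _ _)) (hsub _ _ _)

theorem words (K W : List (Letter R T)) {q' : ℕ} (P : A (p + 1) →ₗ[ℂ] A q') (hP : c.FO P)
    (U : A p) :
    t.Gr (W.length + 2) (fun σ => s.N q' (P (c.wa (p + 1) W (s.FK K (t.E σ • U))))) := by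
  have hwa : ∀ W : List (Letter R T), t.PG W.length (fun σ => c.wa p W (t.E σ • U)) := by
    intro W
    induction W with
    | nil => exact PG.base U
    | cons l W ih => exact t.PG_act l ih
  have h1 := s.wa_FK K W
  have h2 : ∀ Z ∈ Submodule.span ℂ (s.wset (cnt K) W.length),
      t.Gr (W.length + 2) (fun σ => s.N q' (P (Z (t.E σ • U)))) := by
    intro Z hZ
    induction hZ using Submodule.span_induction with
    | mem Z hZ =>
      obtain ⟨K', W', hK', hW', rfl⟩ := hZ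
      exact t.Gr_mono (by omega) (t.crude K'.length K' rfl q' P hP _ _ (hwa W'))
    | zero => simpa using t.Gr_zero _
    | add Z Z' _ _ h h' =>
      refine t.Gr_le (fun ξ => ?_) (t.Gr_add h h')
      rw [LinearMap.add_apply, map_add]; exact map_add_le_add _ _ _
    | smul z Z _ h =>
      refine t.Gr_le (fun ξ => le_of_eq ?_) (t.Gr_mul ‖z‖ (fun ξ => s.N0 _ _) h)
      rw [LinearMap.smul_apply, map_smul, map_smul_eq_mul]
  exact h2 _ h1

end Tst

end Pool.Agent.H56.DtN
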