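import Mathlib

set_option autoImplicit false
set_option linter.unusedSectionVars false

namespace Pool.Agent.H56.DtN

/-- Letters: multiplication by a function, or the Lie derivative along a tangential field. -/
inductive Letter (R T : Type*) where
  | fn (b : R) : Letter R T
  | vf (V : T) : Letter R T

/-- number of function letters of a list -/
def cnt {R T : Type*} : List (Letter R T) → ℕ
  | [] => 0
  | Letter.fn _ :: K => cnt K + 1
  | Letter.vf _ :: K => cnt K

section Basic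

variable {R T α : Type*} [CommRing R] [Algebra ℂ R] [Fintype α] {A : ℕ → Type*}
    [∀ q, AddCommGroup (A q)] [∀ q, Module ℂ (A q)] [∀ q, Module R (A q)]
    [∀ q, IsScalarTower ℂ R (A q)]

/-- multiplication by a function, as a complex linear map -/
def mulL (b : R) (q : ℕ) : A q →ₗ[ℂ] A q where
  toFun w := b • w
  map_add' := smul_add b
  map_smul' c w := by
    simp only [RingHom.id_apply]
    rw [← algebraMap_smul R c w, ← algebraMap_smul R c (b • w), smul_comm]

@[simp] lemma mulL_apply (b : R) (q : ℕ) (w : A q) : mulL b q w = b • w := rfl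

/-- R-linearity as a property of a complex linear map -/
def RL (R : Type*) [CommRing R] [Algebra ℂ R] {A : ℕ → Type*}
    [∀ q, AddCommGroup (A q)] [∀ q, Module ℂ (A q)] [∀ q, Module R (A q)] {q q' : ℕ}
    (P : A q →ₗ[ℂ] A q') : Prop :=
  ∀ (b : R) (w : A q), P (b • w) = b • P w

variable (R T α A) in
/-- the calculus of Lie derivatives along tangential fields and of first order operators -/
structure Calc where
  /-- tangential fields act on functions -/
  dT : T → R → R
  /-- Lie derivatives -/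
  L : T → ∀ q, A q →ₗ[ℂ] A q
  L_smul : ∀ V q (b : R) (w : A q), L V q (b • w) = dT V b • w + b • L V q w
  /-- spanning vector fields, acting on functions -/
  X : α → R → R
  spanT : ∀ V, ∃ v : α → R, ∀ b, dT V b = ∑ a, X a b * v a
  spanC : ∀ V a, ∃ v : α → R, ∀ b, dT V (X a b) - X a (dT V b) = ∑ e, X e b * v e

variable (c : Calc R T α A)

namespace Calc

/-- action of letters on forms -/
def act : Letter R T → ∀ q, A q →ₗ[ℂ] A q
  | Letter.fn b, q => mulL b q
  | Letter.vf V, q => c.L V q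

@[simp] lemma act_fn (b : R) (q : ℕ) : c.act (Letter.fn b) q = mulL b q := rfl
@[simp] lemma act_vf (V : T) (q : ℕ) : c.act (Letter.vf V) q = c.L V q := rfl

/-- commutator with a letter -/
def comm (D : Letter R T) {q q' : ℕ} (P : A q →ₗ[ℂ] A q') : A q →ₗ[ℂ] A q' :=
  c.act D q' ∘ₗ P - P ∘ₗ c.act D q

lemma comm_apply (D : Letter R T) {q q' : ℕ} (P : A q →ₗ[ℂ] A q') (w : A q) :
    c.comm D P w = c.act D q' (P w) - P (c.act D q w) := rfl

/-- iterated commutator -/
def adK {q q' : ℕ} (P : A q →ₗ[ℂ] A q') : List (Letter R T) → (A q →ₗ[ℂ] A q')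
  | [] => P
  | D :: K => c.comm D (adK P K)

@[simp] lemma adK_nil {q q' : ℕ} (P : A q →ₗ[ℂ] A q') : c.adK P [] = P := rfl
@[simp] lemma adK_cons {q q' : ℕ} (P : A q →ₗ[ℂ] A q') (D : Letter R T)
    (K : List (Letter R T)) : c.adK P (D :: K) = c.comm D (c.adK P K) := rfl

lemma comm_add (D : Letter R T) {q q' : ℕ} (P Q : A q →ₗ[ℂ] A q') :
    c.comm D (P + Q) = c.comm D P + c.comm D Q := by
  ext w; simp only [comm_apply, LinearMap.add_apply, map_add]; abel

lemma comm_smul (D : Letter R T) {q q' : ℕ} (z : ℂ) (P : A q →ₗ[ℂ] A q') :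
    c.comm D (z • P) = z • c.comm D P := by
  ext w; simp only [comm_apply, LinearMap.smul_apply, map_smul, smul_sub]

lemma comm_zero (D : Letter R T) {q q' : ℕ} :
    c.comm D (0 : A q →ₗ[ℂ] A q') = 0 := by
  ext w; simp [comm_apply]

lemma comm_comp (D : Letter R T) {q q' q'' : ℕ} (P : A q' →ₗ[ℂ] A q'')
    (Q : A q →ₗ[ℂ] A q') :
    c.comm D (P ∘ₗ Q) = c.comm D P ∘ₗ Q + P ∘ₗ c.comm D Q := by
  ext w; simp only [comm_apply, LinearMap.add_apply, LinearMap.comp_apply, map_sub]; abel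

/-- first order operators -/
def FO {q q' : ℕ} (P : A q →ₗ[ℂ] A q') : Prop :=
  ∃ Q : α → (A q →ₗ[ℂ] A q'), (∀ a, RL R (Q a)) ∧
    ∀ (b : R) (w : A q), P (b • w) = b • P w + ∑ a, c.X a b • Q a w

lemma FO_of_RL {q q' : ℕ} {P : A q →ₗ[ℂ] A q'} (hP : RL R P) : c.FO P :=
  ⟨fun _ => 0, fun _ b w => by simp, fun b w => by simp [hP b w]⟩

lemma FO_L (V : T) (q : ℕ) : c.FO (c.L V q) := by
  obtain ⟨v, hv⟩ := c.spanT V
  refine ⟨fun a => mulL (v a) q, fun a b w => ?_, fun b w => ?_⟩
  · simp only [mulL_apply]; rw [smul_comm]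
  · rw [c.L_smul, hv b, Finset.sum_smul, add_comm]
    simp only [mulL_apply, mul_smul]

lemma RL_comm_fn {q q' : ℕ} {P : A q →ₗ[ℂ] A q'} (b : R) (hP : c.FO P) :
    RL R (c.comm (Letter.fn b) P) := by
  obtain ⟨Q, hQ, hP⟩ := hP
  have key : ∀ w, c.comm (Letter.fn b) P w = - ∑ a, c.X a b • Q a w := by
    intro w
    rw [comm_apply, act_fn, act_fn, mulL_apply, mulL_apply, hP b w]; abel
  intro b' w
  rw [key, key, smul_neg, Finset.smul_sum]
  congr 1
  refine Finset.sum_congr rfl fun a _ => ?_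
  rw [hQ a, smul_comm]

lemma comm_fn_RL {q q' : ℕ} {P : A q →ₗ[ℂ] A q'} (b : R) (hP : RL R P) :
    c.comm (Letter.fn b) P = 0 := by
  ext w
  rw [comm_apply, act_fn, act_fn, mulL_apply, mulL_apply, hP b w, sub_self]; rfl

lemma RL_comm_vf {q q' : ℕ} {P : A q →ₗ[ℂ] A q'} (V : T) (hP : RL R P) :
    RL R (c.comm (Letter.vf V) P) := by
  intro b w
  rw [comm_apply, comm_apply, act_vf, act_vf, hP, c.L_smul, c.L_smul, map_add, hP, hP, smul_sub]
  abel

lemma RL_add {q q' : ℕ} {P Q : A q →ₗ[ℂ] A q'} (hP : RL R P) (hQ : RL R Q) :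
    RL R (P + Q) := by
  intro b w; simp only [LinearMap.add_apply, hP b w, hQ b w, smul_add]

lemma RL_mulL {q q' : ℕ} {P : A q →ₗ[ℂ] A q'} (b : R) (hP : RL R P) :
    RL R (mulL b q' ∘ₗ P) := by
  intro b' w; simp only [LinearMap.comp_apply, mulL_apply, hP b' w]; rw [smul_comm]

lemma RL_sum {q q' : ℕ} {ι : Type*} (s : Finset ι) (P : ι → (A q →ₗ[ℂ] A q'))
    (hP : ∀ i ∈ s, RL R (P i)) : RL R (∑ i ∈ s, P i) := by
  intro b w
  simp only [LinearMap.sum_apply]
  rw [Finset.smul_sum]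
  exact Finset.sum_congr rfl fun i hi => hP i hi b w

lemma FO_comm_vf {q q' : ℕ} {P : A q →ₗ[ℂ] A q'} (V : T) (hP : c.FO P) :
    c.FO (c.comm (Letter.vf V) P) := by
  obtain ⟨Q, hQ, hP⟩ := hP
  choose cf hcf using c.spanC V
  refine ⟨fun e => (∑ a, mulL (cf a e) q' ∘ₗ Q a)
    + c.comm (Letter.vf V) (Q e), fun e => ?_, fun b w => ?_⟩
  · exact RL_add (RL_sum _ _ fun a _ => RL_mulL _ (hQ a)) (c.RL_comm_vf V (hQ e))
  · have h1 : c.L V q' (P (b • w)) = c.dT V b • P w + b • c.L V q' (P w)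
        + ∑ a, (c.dT V (c.X a b) • Q a w + c.X a b • c.L V q' (Q a w)) := by
      rw [hP, map_add, c.L_smul, map_sum]
      congr 1
      exact Finset.sum_congr rfl fun a _ => c.L_smul _ _ _ _
    have h2 : P (c.L V q (b • w)) = c.dT V b • P w + (∑ a, c.X a (c.dT V b) • Q a w)
        + (b • P (c.L V q w) + ∑ a, c.X a b • Q a (c.L V q w)) := by
      rw [c.L_smul, map_add, hP, hP]
    rw [comm_apply, comm_apply, act_vf, act_vf, h1, h2]
    have h3 : ∑ a, c.dT V (c.X a b) • Q a w - ∑ a, c.X a (c.dT V b) • Q a w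
        = ∑ e, c.X e b • ∑ a, cf a e • Q a w := by
      have h4 : ∀ a, c.dT V (c.X a b) • Q a w - c.X a (c.dT V b) • Q a w
          = ∑ e, c.X e b • cf a e • Q a w := by
        intro a
        rw [← sub_smul, hcf, Finset.sum_smul]
        exact Finset.sum_congr rfl fun e _ => mul_smul _ _ _
      rw [← Finset.sum_sub_distrib, Finset.sum_congr rfl fun a _ => h4 a, Finset.sum_comm]
      exact Finset.sum_congr rfl fun e _ => (Finset.smul_sum).symm
    have h5 : ∑ e, c.X e b • ((∑ a, mulL (cf a e) q'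
        ∘ₗ Q a) + c.comm (Letter.vf V) (Q e)) w
        = ∑ e, c.X e b • ∑ a, cf a e • Q a w
          + (∑ e, c.X e b • c.L V q' (Q e w) - ∑ e, c.X e b • Q e (c.L V q w)) := by
      rw [← Finset.sum_sub_distrib, ← Finset.sum_add_distrib]
      refine Finset.sum_congr rfl fun e _ => ?_
      rw [LinearMap.add_apply, LinearMap.sum_apply, smul_add, comm_apply, smul_sub]
      rfl
    rw [h5, ← h3, Finset.sum_add_distrib, smul_sub]
    abel

end Calc

end Basic

end Pool.Agent.H56.DtN
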