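import Pool.Agent.H56.DtN.Core

set_option autoImplicit false
set_option linter.unusedSectionVars false

namespace Pool.Agent.H56.DtN

variable {R T α : Type*} [CommRing R] [Algebra ℂ R] [Fintype α] {A : ℕ → Type*}
    [∀ q, AddCommGroup (A q)] [∀ q, Module ℂ (A q)] [∀ q, Module R (A q)]
    [∀ q, IsScalarTower ℂ R (A q)]

/-- the operator `F` together with everything which is used about it -/
structure Sys (c : Calc R T α A) (p : ℕ) where
  /-- the L2 norms -/
  N : ∀ q, Seminorm ℂ (A q)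
  Nlin : ∀ {q q' : ℕ} (P : A q →ₗ[ℂ] A q'), RL R P → ∃ C : ℝ, ∀ w, N q' (P w) ≤ C * N q w
  /-- forms which are tangentially zero at the boundary -/
  A0 : ∀ q, Submodule ℂ (A q)
  A0_smul : ∀ q (b : R) (w : A q), w ∈ A0 q → b • w ∈ A0 q
  A0_L : ∀ q (V : T) (w : A q), w ∈ A0 q → c.L V q w ∈ A0 q
  /-- exterior derivative -/
  d : A p →ₗ[ℂ] A (p + 1)
  /-- exterior derivative -/
  d' : A (p + 1) →ₗ[ℂ] A (p + 2)
  /-- codifferential -/
  δ : A (p + 1) →ₗ[ℂ] A p
  d_FO : c.FO d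
  d'_FO : c.FO d'
  δ_FO : c.FO δ
  d_L : ∀ (V : T) (w : A p), c.L V (p + 1) (d w) = d (c.L V p w)
  d_A0 : ∀ w ∈ A0 p, d w ∈ A0 (p + 1)
  /-- the operator -/
  F : A p →ₗ[ℂ] A (p + 1)
  F_A0 : ∀ w ∈ A0 p, F w = 0
  F_d : ∀ u, ∃ φ ∈ A0 p, F u = d (u + φ)
  d'_F : ∀ u, d' (F u) = 0
  δ_F : ∀ u, δ (F u) = 0
  /-- a class of bounded pairings -/
  B : Set (A (p + 1) → A (p + 1) → ℂ)
  B_sub : ∀ β ∈ B, ∀ w w' v, β (w - w') v = β w v - β w' v
  B_der : ∀ β ∈ B, ∀ V : T,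
    (fun w v => β (c.L V (p + 1) w) v + β w (c.L V (p + 1) v)) ∈ B
  B_bd : ∀ β ∈ B, ∃ C : ℝ, ∀ w v, ‖β w v‖ ≤ C * N (p + 1) w * N (p + 1) v
  /-- the inner product -/
  ip : A (p + 1) → A (p + 1) → ℂ
  ip_mem : ip ∈ B
  ip_add : ∀ w v v', ip w (v + v') = ip w v + ip w v'
  ip_self : ∀ w, N (p + 1) w ^ 2 ≤ ‖ip w w‖
  F_orth : ∀ u, ∀ φ ∈ A0 p, ip (F u) (d φ) = 0
  gaffney : ∀ {q' : ℕ} (P : A (p + 1) →ₗ[ℂ] A q'), c.FO P →
    ∃ C : ℝ, ∀ w ∈ A0 (p + 1),
      N q' (P w) ≤ C * (N (p + 2) (d' w) + N p (δ w) + N (p + 1) w)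

namespace Sys

variable {c : Calc R T α A} {p : ℕ} (s : Sys c p)

/-- iterated commutators of F -/
def FK (K : List (Letter R T)) : A p →ₗ[ℂ] A (p + 1) := c.adK s.F K

@[simp] lemma FK_nil : s.FK [] = s.F := rfl

lemma N0 (q : ℕ) (w : A q) : 0 ≤ s.N q w := apply_nonneg _ _

lemma FK_cons (D : Letter R T) (K : List (Letter R T)) (u : A p) :
    s.FK (D :: K) u = c.act D (p + 1) (s.FK K u) - s.FK K (c.act D p u) := rfl

lemma A0_act (D : Letter R T) (q : ℕ) (w : A q) (hw : w ∈ s.A0 q) : c.act D q w ∈ s.A0 q := by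
  cases D with
  | fn b => exact s.A0_smul q b w hw
  | vf V => exact s.A0_L q V w hw

lemma FK_A0 (K : List (Letter R T)) : ∀ w ∈ s.A0 p, s.FK K w = 0 := by
  induction K with
  | nil => exact s.F_A0
  | cons D K ih =>
    intro w hw
    rw [FK_cons, ih w hw, ih _ (s.A0_act D p w hw), map_zero, sub_zero]

/-- iterated commutators with tangential fields only -/
def FV (K : List T) : A p →ₗ[ℂ] A (p + 1) := s.FK (K.map Letter.vf)

lemma FV_nil (u : A p) : s.FV [] u = s.F u := rfl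

lemma FV_cons (V : T) (K : List T) (u : A p) :
    s.FV (V :: K) u = c.L V (p + 1) (s.FV K u) - s.FV K (c.L V p u) := rfl

lemma FV_exact (V : T) (K : List T) : ∀ u, ∃ φ ∈ s.A0 p, s.FV (V :: K) u = s.d φ := by
  induction K generalizing V with
  | nil =>
    intro u
    obtain ⟨φ, hφ, h1⟩ := s.F_d u
    obtain ⟨φ', hφ', h2⟩ := s.F_d (c.L V p u)
    refine ⟨c.L V p φ - φ', (s.A0 p).sub_mem (s.A0_L p V φ hφ) hφ', ?_⟩
    rw [FV_cons, FV_nil, FV_nil, h1, h2, s.d_L, ← map_sub, map_add]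
    congr 1; abel
  | cons V' K ih =>
    intro u
    obtain ⟨φ, hφ, h1⟩ := ih V' u
    obtain ⟨φ', hφ', h2⟩ := ih V' (c.L V p u)
    refine ⟨c.L V p φ - φ', (s.A0 p).sub_mem (s.A0_L p V φ hφ) hφ', ?_⟩
    rw [FV_cons, h1, h2, s.d_L, ← map_sub]

/-- the pairings which occur in the reduction -/
def redSet (n : ℕ) : Set (A p → A p → ℂ) :=
  {g | ∃ β ∈ s.B, ∃ K' : List T, K'.length < n ∧ g = fun u φ => β (s.FV K' u) (s.d φ)}

/-- the operation on pairings -/
def theta (c : Calc R T α A) (p : ℕ) (V : T) : (A p → A p → ℂ) →+ (A p → A p → ℂ) where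
  toFun g := fun u φ => g u (c.L V p φ) + g (c.L V p u) φ
  map_zero' := by ext; simp
  map_add' g g' := by ext; simp only [Pi.add_apply]; ring

lemma theta_mem (V : T) (n : ℕ) (g : A p → A p → ℂ)
    (hg : g ∈ AddSubgroup.closure (s.redSet n)) :
    theta c p V g ∈ AddSubgroup.closure (s.redSet (n + 1)) := by
  induction hg using AddSubgroup.closure_induction with
  | mem g hg =>
    obtain ⟨β, hβ, K', hK', rfl⟩ := hg
    have h : theta c p V (fun u φ => β (s.FV K' u) (s.d φ))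
        = (fun u φ => (fun w v => β (c.L V (p + 1) w) v + β w (c.L V (p + 1) v))
            (s.FV K' u) (s.d φ)) - (fun u φ => β (s.FV (V :: K') u) (s.d φ)) := by
      ext u φ
      have h1 : s.FV (V :: K') u = c.L V (p + 1) (s.FV K' u) - s.FV K' (c.L V p u) := rfl
      simp only [theta, AddMonoidHom.coe_mk, ZeroHom.coe_mk, Pi.sub_apply]
      rw [h1, s.B_sub β hβ, s.d_L]; ring
    rw [h]
    refine AddSubgroup.sub_mem _ (AddSubgroup.subset_closure ?_) (AddSubgroup.subset_closure ?_)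
    · exact ⟨_, s.B_der β hβ V, K', by omega, rfl⟩
    · exact ⟨β, hβ, V :: K', by simpa using hK', rfl⟩
  | zero => rw [map_zero]; exact zero_mem _
  | add g g' _ _ h h' => rw [map_add]; exact add_mem h h'
  | neg g _ h => rw [map_neg]; exact neg_mem h

lemma red (K : List T) : ∃ g ∈ AddSubgroup.closure (s.redSet K.length),
    ∀ u, ∀ φ ∈ s.A0 p, s.ip (s.FV K u) (s.d φ) = g u φ := by
  induction K with
  | nil => exact ⟨0, zero_mem _, fun u φ hφ => s.F_orth u φ hφ⟩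
  | cons V K ih =>
    obtain ⟨g, hg, hgK⟩ := ih
    refine ⟨(fun u φ => (fun w v => s.ip (c.L V (p + 1) w) v + s.ip w (c.L V (p + 1) v))
            (s.FV K u) (s.d φ)) - theta c p V g, ?_, ?_⟩
    · refine AddSubgroup.sub_mem _ (AddSubgroup.subset_closure ?_) (s.theta_mem V _ g hg)
      exact ⟨_, s.B_der _ s.ip_mem V, K, by simp, rfl⟩
    · intro u φ hφ
      have h1 := hgK u (c.L V p φ) (s.A0_L p V φ hφ)
      have h2 := hgK (c.L V p u) φ hφ
      simp only [theta, AddMonoidHom.coe_mk, ZeroHom.coe_mk, Pi.sub_apply]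
      rw [FV_cons, s.B_sub _ s.ip_mem, ← h1, ← h2, s.d_L]; ring

lemma FV_bound_aux (n : ℕ) : ∀ K : List T, K.length = n →
    ∃ C : ℝ, 0 ≤ C ∧ ∀ u, s.N (p + 1) (s.FV K u) ≤ C * s.N (p + 1) (s.F u) := by
  induction n using Nat.strong_induction_on with
  | _ n ih =>
    intro K hK
    have hb : ∀ g ∈ AddSubgroup.closure (s.redSet K.length),
        ∃ C : ℝ, 0 ≤ C ∧ ∀ u φ,
          ‖g u φ‖ ≤ C * s.N (p + 1) (s.F u) * s.N (p + 1) (s.d φ) := by
      intro g hg
      induction hg using AddSubgroup.closure_induction with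
      | mem g hg =>
        obtain ⟨β, hβ, K', hK', rfl⟩ := hg
        obtain ⟨C1, hC1⟩ := s.B_bd β hβ
        obtain ⟨C2, hC20, hC2⟩ := ih K'.length (by omega) K' rfl
        refine ⟨|C1| * C2, by positivity, fun u φ => ?_⟩
        calc ‖β (s.FV K' u) (s.d φ)‖
            ≤ C1 * s.N (p + 1) (s.FV K' u) * s.N (p + 1) (s.d φ) := hC1 _ _
          _ ≤ |C1| * s.N (p + 1) (s.FV K' u) * s.N (p + 1) (s.d φ) := by
              have h1 := s.N0 (p + 1) (s.FV K' u)
              have h2 := s.N0 (p + 1) (s.d φ)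
              gcongr
              exact le_abs_self _
          _ ≤ |C1| * (C2 * s.N (p + 1) (s.F u)) * s.N (p + 1) (s.d φ) := by
              have h2 := s.N0 (p + 1) (s.d φ)
              gcongr
              exact hC2 u
          _ = |C1| * C2 * s.N (p + 1) (s.F u) * s.N (p + 1) (s.d φ) := by ring
      | zero => exact ⟨0, le_rfl, fun u φ => by simp⟩
      | add g g' _ _ h h' =>
        obtain ⟨C, hC0, hC⟩ := h
        obtain ⟨C', hC'0, hC'⟩ := h'
        refine ⟨C + C', by positivity, fun u φ => ?_⟩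
        calc ‖(g + g') u φ‖ ≤ ‖g u φ‖ + ‖g' u φ‖ := norm_add_le _ _
          _ ≤ _ := add_le_add (hC u φ) (hC' u φ)
          _ = _ := by ring
      | neg g _ h =>
        obtain ⟨C, hC0, hC⟩ := h
        refine ⟨C, hC0, fun u φ => ?_⟩
        have : ‖(-g) u φ‖ = ‖g u φ‖ := norm_neg _
        rw [this]; exact hC u φ
    cases K with
    | nil => exact ⟨1, zero_le_one, fun u => by rw [FV_nil, one_mul]⟩
    | cons V K =>
      obtain ⟨g, hg, hgK⟩ := s.red (V :: K)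
      obtain ⟨C, hC0, hC⟩ := hb g hg
      refine ⟨C, hC0, fun u => ?_⟩
      obtain ⟨φ, hφ, h1⟩ := s.FV_exact V K u
      have h2 : s.N (p + 1) (s.FV (V :: K) u) ^ 2
          ≤ C * s.N (p + 1) (s.F u) * s.N (p + 1) (s.FV (V :: K) u) := by
        calc s.N (p + 1) (s.FV (V :: K) u) ^ 2
            ≤ ‖s.ip (s.FV (V :: K) u) (s.FV (V :: K) u)‖ := s.ip_self _
          _ = ‖g u φ‖ := by
              rw [← hgK u φ hφ, ← h1]
          _ ≤ C * s.N (p + 1) (s.F u) * s.N (p + 1) (s.d φ) := hC u φ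
          _ = _ := by rw [← h1]
      have h0 : 0 ≤ s.N (p + 1) (s.FV (V :: K) u) := apply_nonneg _ _
      rcases h0.eq_or_lt with h0 | h0
      · rw [← h0]; exact mul_nonneg hC0 (apply_nonneg _ _)
      · exact le_of_mul_le_mul_right (by rw [← sq]; exact h2) h0

lemma FV_bound (K : List T) :
    ∃ C : ℝ, 0 ≤ C ∧ ∀ u, s.N (p + 1) (s.FV K u) ≤ C * s.N (p + 1) (s.F u) :=
  s.FV_bound_aux K.length K rfl

lemma F_bound : ∃ C : ℝ, 0 ≤ C ∧ ∀ u, s.N (p + 1) (s.F u) ≤ C * s.N (p + 1) (s.d u) := by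
  obtain ⟨C, hC⟩ := s.B_bd _ s.ip_mem
  refine ⟨|C|, abs_nonneg _, fun u => ?_⟩
  obtain ⟨φ, hφ, h1⟩ := s.F_d u
  have h2 : s.N (p + 1) (s.F u) ^ 2 ≤ |C| * s.N (p + 1) (s.d u) * s.N (p + 1) (s.F u) := by
    calc s.N (p + 1) (s.F u) ^ 2 ≤ ‖s.ip (s.F u) (s.F u)‖ := s.ip_self _
      _ = ‖s.ip (s.F u) (s.d u)‖ := by
          have : s.ip (s.F u) (s.F u) = s.ip (s.F u) (s.d (u + φ)) := by rw [← h1]
          rw [this, map_add, s.ip_add, s.F_orth u φ hφ, add_zero]
      _ ≤ C * s.N (p + 1) (s.F u) * s.N (p + 1) (s.d u) := hC _ _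
      _ ≤ |C| * s.N (p + 1) (s.F u) * s.N (p + 1) (s.d u) := by
          have h1 := s.N0 (p + 1) (s.F u)
          have h2 := s.N0 (p + 1) (s.d u)
          gcongr
          exact le_abs_self _
      _ = _ := by ring
  have h0 : 0 ≤ s.N (p + 1) (s.F u) := apply_nonneg _ _
  rcases h0.eq_or_lt with h0 | h0
  · rw [← h0]; exact mul_nonneg (abs_nonneg _) (apply_nonneg _ _)
  · exact le_of_mul_le_mul_right (by rw [← sq]; exact h2) h0

/-- bounded by the energies of finitely many multiples -/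
def Bd (Z : A p →ₗ[ℂ] A (p + 1)) : Prop :=
  ∃ (S : List R) (C : ℝ), 0 ≤ C ∧
    ∀ u, s.N (p + 1) (Z u) ≤ C * (S.map fun b => s.N (p + 1) (s.d (b • u))).sum

lemma sum_nonneg (S : List R) (u : A p) :
    0 ≤ (S.map fun b => s.N (p + 1) (s.d (b • u))).sum := by
  apply List.sum_nonneg
  intro x hx
  obtain ⟨b, _, rfl⟩ := List.mem_map.mp hx
  exact apply_nonneg _ _

lemma Bd_add {Z Z' : A p →ₗ[ℂ] A (p + 1)} (h : s.Bd Z) (h' : s.Bd Z') : s.Bd (Z + Z') := by
  obtain ⟨S, C, hC0, hC⟩ := h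
  obtain ⟨S', C', hC'0, hC'⟩ := h'
  refine ⟨S ++ S', C + C', by positivity, fun u => ?_⟩
  rw [List.map_append, List.sum_append, LinearMap.add_apply]
  have h1 := hC u
  have h2 := hC' u
  have h3 := s.sum_nonneg S u
  have h4 := s.sum_nonneg S' u
  calc s.N (p + 1) (Z u + Z' u) ≤ s.N (p + 1) (Z u) + s.N (p + 1) (Z' u) := map_add_le_add _ _ _
    _ ≤ _ := add_le_add h1 h2
    _ ≤ _ := by nlinarith [mul_nonneg hC0 h4, mul_nonneg hC'0 h3]

lemma Bd_smul {Z : A p →ₗ[ℂ] A (p + 1)} (z : ℂ) (h : s.Bd Z) : s.Bd (z • Z) := by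
  obtain ⟨S, C, hC0, hC⟩ := h
  refine ⟨S, ‖z‖ * C, by positivity, fun u => ?_⟩
  rw [LinearMap.smul_apply, map_smul_eq_mul, mul_assoc]
  exact mul_le_mul_of_nonneg_left (hC u) (norm_nonneg _)

lemma Bd_zero : s.Bd 0 := ⟨[], 0, le_rfl, fun u => by simp⟩

lemma Bd_mul (b : R) {Z : A p →ₗ[ℂ] A (p + 1)} (h : s.Bd Z) : s.Bd (mulL b (p + 1) ∘ₗ Z) := by
  obtain ⟨S, C, hC0, hC⟩ := h
  obtain ⟨C1, hC1⟩ := s.Nlin (mulL b (p + 1)) (fun b' w => by
    simp only [mulL_apply]; rw [smul_comm])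
  refine ⟨S, |C1| * C, by positivity, fun u => ?_⟩
  calc s.N (p + 1) ((mulL b (p + 1) ∘ₗ Z) u) ≤ C1 * s.N (p + 1) (Z u) := hC1 _
    _ ≤ |C1| * s.N (p + 1) (Z u) := by
        have h1 := s.N0 (p + 1) (Z u)
        gcongr
        exact le_abs_self _
    _ ≤ |C1| * (C * _) := mul_le_mul_of_nonneg_left (hC u) (abs_nonneg _)
    _ = _ := by ring

lemma Bd_comp_mul (b : R) {Z : A p →ₗ[ℂ] A (p + 1)} (h : s.Bd Z) : s.Bd (Z ∘ₗ mulL b p) := by
  obtain ⟨S, C, hC0, hC⟩ := h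
  refine ⟨S.map (fun b' => b' * b), C, hC0, fun u => ?_⟩
  have := hC (b • u)
  rw [List.map_map]
  refine this.trans (le_of_eq ?_)
  congr 2
  refine List.map_congr_left fun b' _ => ?_
  simp only [Function.comp_apply, mul_smul]

lemma Bd_comm_fn (b : R) {Z : A p →ₗ[ℂ] A (p + 1)} (h : s.Bd Z) :
    s.Bd (c.comm (Letter.fn b) Z) := by
  have h1 : c.comm (Letter.fn b) Z
      = mulL b (p + 1) ∘ₗ Z + (-1 : ℂ) • (Z ∘ₗ mulL b p) := by
    ext u
    rw [Calc.comm_apply, LinearMap.add_apply, neg_one_smul, LinearMap.neg_apply,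
      sub_eq_add_neg]
    rfl
  rw [h1]
  exact s.Bd_add (s.Bd_mul b h) (s.Bd_smul _ (s.Bd_comp_mul b h))

lemma Bd_FV (K : List T) : s.Bd (s.FV K) := by
  obtain ⟨C, hC0, hC⟩ := s.FV_bound K
  obtain ⟨C1, hC10, hC1⟩ := s.F_bound
  refine ⟨[1], C * C1, by positivity, fun u => ?_⟩
  simp only [List.map_cons, List.map_nil, List.sum_cons, List.sum_nil, add_zero, one_smul]
  calc s.N (p + 1) (s.FV K u) ≤ C * s.N (p + 1) (s.F u) := hC u
    _ ≤ C * (C1 * s.N (p + 1) (s.d u)) := mul_le_mul_of_nonneg_left (hC1 u) hC0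
    _ = _ := by ring

/-- the normal form: functions outside, fields inside -/
def normSet : Set (A p →ₗ[ℂ] A (p + 1)) :=
  {Z | ∃ (bs : List R) (K : List T), Z = c.adK (s.FV K) (bs.map Letter.fn)}

lemma comm_vf_fn (V : T) (b : R) (Z : A p →ₗ[ℂ] A (p + 1)) :
    c.comm (Letter.vf V) (c.comm (Letter.fn b) Z)
      = c.comm (Letter.fn b) (c.comm (Letter.vf V) Z) + c.comm (Letter.fn (c.dT V b)) Z := by
  ext u
  simp only [Calc.comm_apply, LinearMap.add_apply, Calc.act_fn, Calc.act_vf, mulL_apply, map_sub,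
    c.L_smul, map_add, smul_sub]
  abel

lemma comm_span (D : Letter R T) (Z : A p →ₗ[ℂ] A (p + 1))
    (hZ : Z ∈ Submodule.span ℂ s.normSet) : c.comm D Z ∈ Submodule.span ℂ s.normSet := by
  have fnstep : ∀ (b : R) (Z : A p →ₗ[ℂ] A (p + 1)), Z ∈ Submodule.span ℂ s.normSet →
      c.comm (Letter.fn b) Z ∈ Submodule.span ℂ s.normSet := by
    intro b Z hZ
    induction hZ using Submodule.span_induction with
    | mem Z hZ =>
      obtain ⟨bs, K, rfl⟩ := hZ
      exact Submodule.subset_span ⟨b :: bs, K, rfl⟩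
    | zero => rw [c.comm_zero]; exact zero_mem _
    | add Z Z' _ _ h h' => rw [c.comm_add]; exact add_mem h h'
    | smul z Z _ h => rw [c.comm_smul]; exact Submodule.smul_mem _ _ h
  cases D with
  | fn b => exact fnstep b Z hZ
  | vf V =>
    induction hZ using Submodule.span_induction with
    | mem Z hZ =>
      obtain ⟨bs, K, rfl⟩ := hZ
      induction bs with
      | nil => exact Submodule.subset_span ⟨[], V :: K, rfl⟩
      | cons b bs ih =>
        rw [List.map_cons, Calc.adK_cons, comm_vf_fn]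
        exact add_mem (fnstep b _ ih)
          (Submodule.subset_span ⟨c.dT V b :: bs, K, rfl⟩)
    | zero => rw [c.comm_zero]; exact zero_mem _
    | add Z Z' _ _ h h' => rw [c.comm_add]; exact add_mem h h'
    | smul z Z _ h => rw [c.comm_smul]; exact Submodule.smul_mem _ _ h

lemma FK_span (K : List (Letter R T)) : s.FK K ∈ Submodule.span ℂ s.normSet := by
  induction K with
  | nil => exact Submodule.subset_span ⟨[], [], rfl⟩
  | cons D K ih => exact s.comm_span D _ ih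

/-- section 2: every iterated commutator is bounded by energies -/
theorem Bd_FK (K : List (Letter R T)) : s.Bd (s.FK K) := by
  have h0 := s.FK_span K
  generalize s.FK K = Z at h0
  induction h0 using Submodule.span_induction with
  | mem Z hZ =>
    obtain ⟨bs, K, rfl⟩ := hZ
    induction bs with
    | nil => exact s.Bd_FV K
    | cons b bs ih => exact s.Bd_comm_fn b ih
  | zero => exact s.Bd_zero
  | add Z Z' _ _ h h' => exact s.Bd_add h h'
  | smul z Z _ h => exact s.Bd_smul z h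

end Sys

end Pool.Agent.H56.DtN
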