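import Pool.Agent.H56.DtN.Energy

set_option autoImplicit false
set_option linter.unusedSectionVars false

namespace Pool.Agent.H56.DtN

variable {R T α : Type*} [CommRing R] [Algebra ℂ R] [Fintype α] {A : ℕ → Type*}
    [∀ q, AddCommGroup (A q)] [∀ q, Module ℂ (A q)] [∀ q, Module R (A q)]
    [∀ q, IsScalarTower ℂ R (A q)]

namespace Sys

variable {c : Calc R T α A} {p : ℕ} (s : Sys c p)

/-- terms allowed in the reduction of `P₀ ∘ F_K` -/
def eqSet (K : List (Letter R T)) (q' : ℕ) : Set (A p →ₗ[ℂ] A q') :=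
  {Z | ∃ (P : A (p + 1) →ₗ[ℂ] A q') (K' : List (Letter R T)), K'.length < K.length ∧
    ((c.FO P ∧ cnt K' = cnt K) ∨ (RL R P ∧ cnt K' + 1 = cnt K)) ∧ Z = P ∘ₗ s.FK K'}

lemma comm_eqSet (D : Letter R T) (K : List (Letter R T)) (q' : ℕ) (Z : A p →ₗ[ℂ] A q')
    (hZ : Z ∈ Submodule.span ℂ (s.eqSet K q')) :
    c.comm D Z ∈ Submodule.span ℂ (s.eqSet (D :: K) q') := by
  induction hZ using Submodule.span_induction with
  | mem Z hZ =>
    obtain ⟨P, K', hK', hP, rfl⟩ := hZ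
    rw [c.comm_comp]
    have hlen : K'.length < (D :: K).length := by simp only [List.length_cons]; omega
    have hlen' : (D :: K').length < (D :: K).length := by simpa using hK'
    refine add_mem ?_ ?_
    · cases D with
      | fn b =>
        rcases hP with ⟨hP, h1⟩ | ⟨hP, h1⟩
        · refine Submodule.subset_span ⟨_, K', hlen, Or.inr ⟨c.RL_comm_fn b hP, ?_⟩, rfl⟩
          simp only [cnt, h1]
        · rw [c.comm_fn_RL b hP]
          have : (0 : A (p + 1) →ₗ[ℂ] A q') ∘ₗ s.FK K' = 0 := LinearMap.zero_comp _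
          rw [this]; exact zero_mem _
      | vf V =>
        refine Submodule.subset_span ⟨_, K', hlen, ?_, rfl⟩
        rcases hP with ⟨hP, h1⟩ | ⟨hP, h1⟩
        · exact Or.inl ⟨c.FO_comm_vf V hP, by simp only [cnt, h1]⟩
        · exact Or.inr ⟨c.RL_comm_vf V hP, by simp only [cnt, h1]⟩
    · refine Submodule.subset_span ⟨P, D :: K', hlen', ?_, rfl⟩
      cases D with
      | fn b =>
        rcases hP with ⟨hP, h1⟩ | ⟨hP, h1⟩
        · exact Or.inl ⟨hP, by simp only [cnt, h1]⟩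
        · exact Or.inr ⟨hP, by simp only [cnt, h1]⟩
      | vf V =>
        rcases hP with ⟨hP, h1⟩ | ⟨hP, h1⟩
        · exact Or.inl ⟨hP, by simp only [cnt, h1]⟩
        · exact Or.inr ⟨hP, by simp only [cnt, h1]⟩
  | zero => rw [c.comm_zero]; exact zero_mem _
  | add Z Z' _ _ h h' => rw [c.comm_add]; exact add_mem h h'
  | smul z Z _ h => rw [c.comm_smul]; exact Submodule.smul_mem _ _ h

theorem eq_FK {q' : ℕ} (P₀ : A (p + 1) →ₗ[ℂ] A q') (hP : c.FO P₀)
    (h0 : ∀ u, P₀ (s.F u) = 0) (K : List (Letter R T)) :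
    P₀ ∘ₗ s.FK K ∈ Submodule.span ℂ (s.eqSet K q') := by
  induction K with
  | nil =>
    have : P₀ ∘ₗ s.FK [] = 0 := by ext u; simp [h0]
    rw [this]; exact zero_mem _
  | cons D K ih =>
    have h1 : P₀ ∘ₗ s.FK (D :: K) = c.comm D (P₀ ∘ₗ s.FK K) - c.comm D P₀ ∘ₗ s.FK K := by
      rw [c.comm_comp, add_sub_cancel_left]; rfl
    rw [h1]
    refine sub_mem (s.comm_eqSet D K q' _ ih) (Submodule.subset_span ⟨_, K, by simp, ?_, rfl⟩)
    cases D with
    | fn b => exact Or.inr ⟨c.RL_comm_fn b hP, by simp only [cnt]⟩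
    | vf V => exact Or.inl ⟨c.FO_comm_vf V hP, by simp only [cnt]⟩

lemma FK_sub (K : List (Letter R T)) : ∀ u, s.FK K u - c.adK s.d K u ∈ s.A0 (p + 1) := by
  induction K with
  | nil =>
    intro u
    obtain ⟨φ, hφ, h1⟩ := s.F_d u
    rw [FK_nil, Calc.adK_nil, h1, map_add, add_sub_cancel_left]
    exact s.d_A0 φ hφ
  | cons D K ih =>
    intro u
    have h1 : s.FK (D :: K) u - c.adK s.d (D :: K) u
        = c.act D (p + 1) (s.FK K u - c.adK s.d K u)
          - (s.FK K (c.act D p u) - c.adK s.d K (c.act D p u)) := by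
      rw [FK_cons, Calc.adK_cons, Calc.comm_apply, map_sub]; abel
    rw [h1]
    exact sub_mem (s.A0_act D _ _ (ih u)) (ih _)

lemma comm_vf_d (V : T) : c.comm (Letter.vf V) s.d = 0 := by
  ext u
  rw [Calc.comm_apply, Calc.act_vf, Calc.act_vf, s.d_L, sub_self]; rfl

lemma GK_RL (K : List (Letter R T)) (hK : K ≠ []) : RL R (c.adK s.d K) := by
  induction K with
  | nil => exact absurd rfl hK
  | cons D K ih =>
    rw [Calc.adK_cons]
    by_cases hK' : K = []
    · subst hK'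
      cases D with
      | fn b => exact c.RL_comm_fn b s.d_FO
      | vf V => rw [Calc.adK_nil, comm_vf_d]; intro b w; simp
    · cases D with
      | fn b => exact c.RL_comm_fn b (c.FO_of_RL (ih hK'))
      | vf V => exact c.RL_comm_vf V (ih hK')

lemma GK_zero (K : List (Letter R T)) (hK : K ≠ []) (h0 : cnt K = 0) : c.adK s.d K = 0 := by
  induction K with
  | nil => exact absurd rfl hK
  | cons D K ih =>
    rw [Calc.adK_cons]
    cases D with
    | fn b => simp [cnt] at h0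
    | vf V =>
      by_cases hK' : K = []
      · subst hK'; rw [Calc.adK_nil, comm_vf_d]
      · rw [ih hK' h0, c.comm_zero]

lemma GK_zero' (K : List (Letter R T)) (h2 : 2 ≤ cnt K) : c.adK s.d K = 0 := by
  induction K with
  | nil => simp [cnt] at h2
  | cons D K ih =>
    rw [Calc.adK_cons]
    cases D with
    | fn b =>
      have hK : K ≠ [] := by rintro rfl; simp [cnt] at h2
      exact c.comm_fn_RL b (s.GK_RL K hK)
    | vf V => rw [ih h2, c.comm_zero]

end Sys

/-- exponentials, coordinates and cut off forms -/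
structure Freq {c : Calc R T α A} {p : ℕ} (s : Sys c p) (Ξ J : Type*) [Fintype J]
    [DecidableEq J] where
  /-- coordinates of a covector -/
  co : Ξ → J → ℝ
  /-- length of a covector -/
  nn : Ξ → ℝ
  nn0 : ∀ ξ, 0 ≤ nn ξ
  co_le : ∀ ξ j, |co ξ j| ≤ nn ξ
  nn_le : ∀ ξ, nn ξ ≤ ∑ j, |co ξ j|
  /-- functions which are coordinates -/
  b : J → R
  /-- the exponentials -/
  E : Ξ → R
  /-- bound for the exponentials -/
  CE : ℝ
  CE0 : 0 ≤ CE
  E_bd : ∀ q ξ (w : A q), s.N q (E ξ • w) ≤ CE * s.N q w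
  E_X : ∀ ξ a, c.X a (E ξ)
    = ∑ j, (((2 * Real.pi * co ξ j : ℝ) : ℂ) * Complex.I) • (c.X a (b j) * E ξ)
  /-- the coordinate fields -/
  V : J → T
  /-- forms supported in the good region -/
  UU : Submodule R (A p)
  UU_L : ∀ V : T, ∀ U ∈ UU, c.L V p U ∈ UU
  UU_A0 : ∀ j l, ∀ U ∈ UU, (c.dT (V j) (b l) - if j = l then 1 else 0) • U ∈ s.A0 p

namespace Freq

variable {c : Calc R T α A} {p : ℕ} {s : Sys c p} {Ξ J : Type*} [Fintype J] [DecidableEq J]
    (e : Freq s Ξ J)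

/-- the frequency as a complex number -/
noncomputable def fr (ξ : Ξ) (j : J) : ℂ := ((2 * Real.pi * e.co ξ j : ℝ) : ℂ) * Complex.I

lemma E_T (ξ : Ξ) (V : T) : c.dT V (e.E ξ) = ∑ j, e.fr ξ j • (c.dT V (e.b j) * e.E ξ) := by
  obtain ⟨v, hv⟩ := c.spanT V
  rw [hv]
  have h1 : ∀ a, c.X a (e.E ξ) * v a
      = ∑ j, e.fr ξ j • ((c.X a (e.b j) * v a) * e.E ξ) := by
    intro a
    rw [e.E_X, Finset.sum_mul]
    refine Finset.sum_congr rfl fun j _ => ?_
    rw [smul_mul_assoc, fr]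
    congr 1; ring
  rw [Finset.sum_congr rfl fun a _ => h1 a, Finset.sum_comm]
  refine Finset.sum_congr rfl fun j _ => ?_
  rw [← Finset.smul_sum, ← Finset.sum_mul, ← hv]

/-- the bracket 1 + |ξ| -/
noncomputable def br (ξ : Ξ) : ℝ := 1 + e.nn ξ

lemma one_le_br (ξ : Ξ) : 1 ≤ e.br ξ := by
  have := e.nn0 ξ; unfold br; linarith

lemma br_pos (ξ : Ξ) : 0 < e.br ξ := lt_of_lt_of_le one_pos (e.one_le_br ξ)

/-- growth at most of order m -/
def Gr (m : ℤ) (g : Ξ → ℝ) : Prop := ∃ C : ℝ, 0 ≤ C ∧ ∀ ξ, g ξ ≤ C * e.br ξ ^ m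

lemma Gr_mono {m m' : ℤ} (h : m ≤ m') {g : Ξ → ℝ} (hg : e.Gr m g) : e.Gr m' g := by
  obtain ⟨C, hC0, hC⟩ := hg
  refine ⟨C, hC0, fun ξ => (hC ξ).trans ?_⟩
  exact mul_le_mul_of_nonneg_left (zpow_le_zpow_right₀ (e.one_le_br ξ) h) hC0

lemma Gr_le {m : ℤ} {g g' : Ξ → ℝ} (h : ∀ ξ, g ξ ≤ g' ξ) (hg : e.Gr m g') : e.Gr m g := by
  obtain ⟨C, hC0, hC⟩ := hg
  exact ⟨C, hC0, fun ξ => (h ξ).trans (hC ξ)⟩

lemma Gr_add {m : ℤ} {g g' : Ξ → ℝ} (hg : e.Gr m g) (hg' : e.Gr m g') :
    e.Gr m (fun ξ => g ξ + g' ξ) := by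
  obtain ⟨C, hC0, hC⟩ := hg
  obtain ⟨C', hC'0, hC'⟩ := hg'
  refine ⟨C + C', by positivity, fun ξ => ?_⟩
  rw [add_mul]; exact add_le_add (hC ξ) (hC' ξ)

lemma Gr_mul {m : ℤ} {g : Ξ → ℝ} (a : ℝ) (h0 : ∀ ξ, 0 ≤ g ξ) (hg : e.Gr m g) :
    e.Gr m (fun ξ => a * g ξ) := by
  obtain ⟨C, hC0, hC⟩ := hg
  refine ⟨|a| * C, by positivity, fun ξ => ?_⟩
  calc a * g ξ ≤ |a| * g ξ := mul_le_mul_of_nonneg_right (le_abs_self a) (h0 ξ)
    _ ≤ |a| * (C * e.br ξ ^ m) := mul_le_mul_of_nonneg_left (hC ξ) (abs_nonneg _)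
    _ = _ := by ring

lemma Gr_sum {ι : Type*} {m : ℤ} (S : List ι) (g : ι → Ξ → ℝ) (h : ∀ i ∈ S, e.Gr m (g i)) :
    e.Gr m (fun ξ => (S.map fun i => g i ξ).sum) := by
  induction S with
  | nil => exact ⟨0, le_rfl, fun ξ => by simp⟩
  | cons i S ih =>
    have h1 := e.Gr_add (h i (by simp)) (ih fun j hj => h j (by simp [hj]))
    simpa using h1

lemma Gr_zero (m : ℤ) : e.Gr m (fun _ => (0 : ℝ)) := ⟨0, le_rfl, fun ξ => by simp⟩

/-- polynomially modulated exponentials -/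
inductive PG {q : ℕ} (S : Set (A q)) : ℕ → (Ξ → A q) → Prop
  | base (w : A q) (hw : w ∈ S) : PG S 0 (fun ξ => e.E ξ • w)
  | add (k : ℕ) (g g' : Ξ → A q) (h : PG S k g) (h' : PG S k g') :
      PG S k (fun ξ => g ξ + g' ξ)
  | mul (k : ℕ) (j : J) (g : Ξ → A q) (h : PG S k g) :
      PG S (k + 1) (fun ξ => e.fr ξ j • g ξ)
  | up (k : ℕ) (g : Ξ → A q) (h : PG S k g) : PG S (k + 1) g

lemma PG_le {q : ℕ} {S : Set (A q)} {k l : ℕ} (hkl : k ≤ l) {g : Ξ → A q} (h : e.PG S k g) :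
    e.PG S l g := by
  induction hkl with
  | refl => exact h
  | step _ ih => exact PG.up _ _ ih

lemma norm_fr (ξ : Ξ) (j : J) : ‖e.fr ξ j‖ = 2 * Real.pi * |e.co ξ j| := by
  rw [fr, norm_mul, Complex.norm_I, mul_one, Complex.norm_real, Real.norm_eq_abs, abs_mul,
    abs_of_pos (by positivity : (0 : ℝ) < 2 * Real.pi)]

lemma PG_bound {q : ℕ} {S : Set (A q)} {k : ℕ} {g : Ξ → A q} (h : e.PG S k g) :
    e.Gr k (fun ξ => s.N q (g ξ)) := by
  induction h with
  | base w hw =>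
    exact ⟨e.CE * s.N q w, mul_nonneg e.CE0 (s.N0 _ _), fun ξ => by simpa using e.E_bd q ξ w⟩
  | add k g g' _ _ h h' => exact e.Gr_le (fun ξ => map_add_le_add _ _ _) (e.Gr_add h h')
  | mul k j g _ h =>
    obtain ⟨C, hC0, hC⟩ := h
    refine ⟨2 * Real.pi * C, by positivity, fun ξ => ?_⟩
    show s.N q (e.fr ξ j • g ξ) ≤ _
    rw [map_smul_eq_mul, e.norm_fr]
    have h1 : |e.co ξ j| ≤ e.br ξ := (e.co_le ξ j).trans (by unfold br; linarith)
    have h2 := e.br_pos ξ
    push_cast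
    rw [zpow_add_one₀ h2.ne']
    calc 2 * Real.pi * |e.co ξ j| * s.N q (g ξ)
        ≤ 2 * Real.pi * e.br ξ * (C * e.br ξ ^ (k : ℤ)) := by
          have := s.N0 q (g ξ)
          have h3 := hC ξ
          gcongr
      _ = _ := by ring
  | up k g _ h => exact e.Gr_mono (by push_cast; omega) h

lemma PG_sum {q : ℕ} {S : Set (A q)} {ι : Type*} (I : Finset ι) (k : ℕ) (g : ι → Ξ → A q)
    (g0 : Ξ → A q) (h0 : e.PG S k g0) (h : ∀ i ∈ I, e.PG S k (g i)) :
    e.PG S k (fun ξ => g0 ξ + ∑ i ∈ I, g i ξ) := by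
  classical
  induction I using Finset.induction_on with
  | empty => simpa using h0
  | insert i I hi ih =>
    have h1 := PG.add k _ _ (ih fun j hj => h j (by simp [hj])) (h i (by simp))
    have h2 : (fun ξ => g0 ξ + ∑ j ∈ insert i I, g j ξ)
        = fun ξ => (g0 ξ + ∑ j ∈ I, g j ξ) + g i ξ := by
      ext ξ; rw [Finset.sum_insert hi]; abel
    rw [h2]; exact h1

lemma PG_FO {q q' : ℕ} {P : A q →ₗ[ℂ] A q'} (hP : c.FO P) {S : Set (A q)} {k : ℕ}
    {g : Ξ → A q} (h : e.PG S k g) : e.PG Set.univ (k + 1) (fun ξ => P (g ξ)) := by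
  induction h with
  | base w hw =>
    obtain ⟨Q, hQ, hP⟩ := hP
    have h1 : (fun ξ => P (e.E ξ • w)) = fun ξ => e.E ξ • P w
        + ∑ x : α × J, e.fr ξ x.2 • (e.E ξ • (c.X x.1 (e.b x.2) • Q x.1 w)) := by
      ext ξ
      rw [hP, Fintype.sum_prod_type]
      congr 1
      refine Finset.sum_congr rfl fun a _ => ?_
      rw [e.E_X, Finset.sum_smul]
      refine Finset.sum_congr rfl fun j _ => ?_
      show (e.fr ξ j • (c.X a (e.b j) * e.E ξ)) • Q a w
        = e.fr ξ j • (e.E ξ • (c.X a (e.b j) • Q a w))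
      rw [smul_assoc, mul_comm (c.X a (e.b j)) (e.E ξ), mul_smul]
    rw [h1]
    refine e.PG_sum _ _ _ _ (PG.up _ _ (PG.base _ trivial)) fun x _ => ?_
    exact PG.mul 0 x.2 _ (PG.base _ trivial)
  | add k g g' _ _ h h' =>
    have := PG.add _ _ _ h h'
    simpa only [map_add] using this
  | mul k j g _ h =>
    have := PG.mul _ j _ h
    simpa only [map_smul] using this
  | up k g _ h => exact PG.up _ _ h

lemma PG_RL {q q' : ℕ} {P : A q →ₗ[ℂ] A q'} (hP : RL R P) {S : Set (A q)} {k : ℕ}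
    {g : Ξ → A q} (h : e.PG S k g) : e.PG Set.univ k (fun ξ => P (g ξ)) := by
  induction h with
  | base w hw =>
    have := PG.base (e := e) (P w) (Set.mem_univ _)
    simpa only [hP (e.E _) w] using this
  | add k g g' _ _ h h' =>
    have := PG.add _ _ _ h h'
    simpa only [map_add] using this
  | mul k j g _ h =>
    have := PG.mul _ j _ h
    simpa only [map_smul] using this
  | up k g _ h => exact PG.up _ _ h

lemma PG_act (D : Letter R T) {k : ℕ} {g : Ξ → A p} (h : e.PG (e.UU : Set (A p)) k g) :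
    e.PG (e.UU : Set (A p)) (k + 1) (fun ξ => c.act D p (g ξ)) := by
  induction h with
  | base w hw =>
    cases D with
    | fn b =>
      have h1 : (fun ξ => c.act (Letter.fn b) p (e.E ξ • w)) = fun ξ => e.E ξ • (b • w) := by
        ext ξ; rw [Calc.act_fn, mulL_apply, smul_comm]
      rw [h1]
      exact PG.up _ _ (PG.base _ (e.UU.smul_mem b hw))
    | vf V =>
      have h1 : (fun ξ => c.act (Letter.vf V) p (e.E ξ • w)) = fun ξ => e.E ξ • c.L V p w
          + ∑ j, e.fr ξ j • (e.E ξ • (c.dT V (e.b j) • w)) := by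
        ext ξ
        rw [Calc.act_vf, c.L_smul, add_comm, e.E_T, Finset.sum_smul]
        congr 1
        refine Finset.sum_congr rfl fun j _ => ?_
        rw [smul_assoc, mul_comm, mul_smul]
      rw [h1]
      refine e.PG_sum _ _ _ _ (PG.up _ _ (PG.base _ (e.UU_L V w hw))) fun j _ => ?_
      exact PG.mul 0 j _ (PG.base _ (e.UU.smul_mem _ hw))
  | add k g g' _ _ h h' =>
    have := PG.add _ _ _ h h'
    simpa only [map_add] using this
  | mul k j g _ h =>
    have := PG.mul _ j _ h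
    simpa only [map_smul] using this
  | up k g _ h => exact PG.up _ _ h

/-- first claim with exponent m -/
def Ba (β : ℕ) (m : ℤ) : Prop := ∀ K : List (Letter R T), cnt K = β → ∀ U ∈ e.UU,
  e.Gr m (fun ξ => s.N (p + 1) (s.FK K (e.E ξ • U)))

/-- second claim with exponent m -/
def Bb (β : ℕ) (m : ℤ) : Prop := ∀ K : List (Letter R T), cnt K = β → ∀ U ∈ e.UU,
  ∀ {q' : ℕ} (P : A (p + 1) →ₗ[ℂ] A q'), c.FO P →
  e.Gr m (fun ξ => s.N q' (P (s.FK K (e.E ξ • U))))

lemma Ba_one (β : ℕ) : e.Ba β 1 := by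
  intro K _ U hU
  obtain ⟨S, C, hC0, hC⟩ := s.Bd_FK K
  have h1 : e.Gr 1 (fun ξ => (S.map fun b => s.N (p + 1) (s.d (b • (e.E ξ • U)))).sum) := by
    refine e.Gr_sum S _ fun b _ => ?_
    have h2 := e.PG_bound (e.PG_FO s.d_FO (PG.base (e := e) (b • U) (Set.mem_univ _)))
    have h3 : ∀ ξ, b • (e.E ξ • U) = e.E ξ • (b • U) := fun ξ => smul_comm _ _ _
    simp only [h3]
    simpa using h2
  refine e.Gr_le (fun ξ => hC _) (e.Gr_mul C (fun ξ => s.sum_nonneg S _) h1)

lemma GK_bound (K : List (Letter R T)) (U : A p) :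
    e.Gr (1 - cnt K) (fun ξ => s.N (p + 1) (c.adK s.d K (e.E ξ • U))) := by
  rcases Nat.lt_or_ge (cnt K) 2 with h2 | h2
  · by_cases hK : K = []
    · subst hK
      have h1 := e.PG_bound (e.PG_FO s.d_FO (PG.base (e := e) U (Set.mem_univ _)))
      simpa [cnt] using h1
    · rcases Nat.eq_zero_or_pos (cnt K) with h0 | h0
      · rw [s.GK_zero K hK h0]
        simpa using e.Gr_zero _
      · have h1 : cnt K = 1 := by omega
        have h3 := e.PG_bound (e.PG_RL (s.GK_RL K hK) (PG.base (e := e) U (Set.mem_univ _)))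
        rw [h1]; simpa using h3
  · rw [s.GK_zero' K h2]
    simpa using e.Gr_zero _

lemma PGK_bound (K : List (Letter R T)) (U : A p) {q' : ℕ} (P : A (p + 1) →ₗ[ℂ] A q')
    (hP : c.FO P) :
    e.Gr (2 - cnt K) (fun ξ => s.N q' (P (c.adK s.d K (e.E ξ • U)))) := by
  rcases Nat.lt_or_ge (cnt K) 2 with h2 | h2
  · by_cases hK : K = []
    · subst hK
      have h1 := e.PG_bound (e.PG_FO hP
        (e.PG_FO s.d_FO (PG.base (e := e) U (Set.mem_univ _))))
      simpa [cnt] using h1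
    · rcases Nat.eq_zero_or_pos (cnt K) with h0 | h0
      · rw [s.GK_zero K hK h0]
        simpa using e.Gr_zero _
      · have h1 : cnt K = 1 := by omega
        have h3 := e.PG_bound (e.PG_FO hP
          (e.PG_RL (s.GK_RL K hK) (PG.base (e := e) U (Set.mem_univ _))))
        rw [h1]; simpa using h3
  · rw [s.GK_zero' K h2]
    simpa using e.Gr_zero _

lemma step_b (β : ℕ) (m : ℤ) (ha : e.Ba β m)
    (hprev : ∀ β', β' + 1 = β → e.Ba β' (1 - β')) : e.Bb β (max (2 - β) m) := by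
  have main : ∀ n : ℕ, ∀ K : List (Letter R T), K.length = n → cnt K = β → ∀ U ∈ e.UU,
      ∀ (q' : ℕ) (P : A (p + 1) →ₗ[ℂ] A q'), c.FO P →
      e.Gr (max (2 - β) m) (fun ξ => s.N q' (P (s.FK K (e.E ξ • U)))) := by
    intro n
    induction n using Nat.strong_induction_on with
    | _ n ih =>
      intro K hKn hK U hU q' P hP
      -- equations
      have heq : ∀ (q'' : ℕ) (P₀ : A (p + 1) →ₗ[ℂ] A q''), c.FO P₀ → (∀ u, P₀ (s.F u) = 0) →
          e.Gr (max (2 - β) m) (fun ξ => s.N q'' (P₀ (s.FK K (e.E ξ • U)))) := by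
        intro q'' P₀ hP₀ h0
        have h1 := s.eq_FK P₀ hP₀ h0 K
        have h2 : ∀ Z ∈ Submodule.span ℂ (s.eqSet K q''),
            e.Gr (max (2 - β) m) (fun ξ => s.N q'' (Z (e.E ξ • U))) := by
          intro Z hZ
          induction hZ using Submodule.span_induction with
          | mem Z hZ =>
            obtain ⟨P', K', hlen, hor, rfl⟩ := hZ
            rcases hor with ⟨hP', hc⟩ | ⟨hP', hc⟩
            · exact ih K'.length (by omega) K' rfl (by omega) U hU q'' P' hP'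
            · obtain ⟨C, hC⟩ := s.Nlin P' hP'
              have h3 := hprev (cnt K') (by omega) K' rfl U hU
              have h4 : e.Gr (max (2 - β) m)
                  (fun ξ => s.N (p + 1) (s.FK K' (e.E ξ • U))) :=
                e.Gr_mono (by
                  refine le_trans ?_ (le_max_left _ _)
                  have : (cnt K' : ℤ) + 1 = β := by exact_mod_cast hc.trans hK
                  omega) h3
              exact e.Gr_le (fun ξ => hC _) (e.Gr_mul C (fun ξ => s.N0 _ _) h4)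
          | zero => simpa using e.Gr_zero _
          | add Z Z' _ _ h h' =>
            exact e.Gr_le (fun ξ => by
              rw [LinearMap.add_apply]; exact map_add_le_add _ _ _) (e.Gr_add h h')
          | smul z Z _ h =>
            refine e.Gr_le (fun ξ => le_of_eq ?_) (e.Gr_mul ‖z‖ (fun ξ => s.N0 _ _) h)
            rw [LinearMap.smul_apply, map_smul_eq_mul]
        exact h2 _ h1
      have hd := heq _ s.d' s.d'_FO s.d'_F
      have hδ := heq _ s.δ s.δ_FO s.δ_F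
      have hF : e.Gr (max (2 - β) m) (fun ξ => s.N (p + 1) (s.FK K (e.E ξ • U))) :=
        e.Gr_mono (le_max_right _ _) (ha K hK U hU)
      have hcast : (cnt K : ℤ) = β := by exact_mod_cast hK
      have hG : e.Gr (max (2 - β) m) (fun ξ => s.N (p + 1) (c.adK s.d K (e.E ξ • U))) :=
        e.Gr_mono (by refine le_trans ?_ (le_max_left _ _); omega) (e.GK_bound K U)
      have hPG : ∀ (q'' : ℕ) (P₀ : A (p + 1) →ₗ[ℂ] A q''), c.FO P₀ →
          e.Gr (max (2 - β) m) (fun ξ => s.N q'' (P₀ (c.adK s.d K (e.E ξ • U)))) :=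
        fun q'' P₀ hP₀ =>
          e.Gr_mono (by refine le_trans ?_ (le_max_left _ _); omega) (e.PGK_bound K U P₀ hP₀)
      obtain ⟨C, hC⟩ := s.gaffney P hP
      have hsub : ∀ (q'' : ℕ) (x y : A q''), s.N q'' (x - y) ≤ s.N q'' x + s.N q'' y :=
        fun q'' x y => map_sub_le_add _ _ _
      have htot := e.Gr_add (e.Gr_mul |C| (fun ξ => by
        have h1 := s.N0 _ (s.d' (s.FK K (e.E ξ • U)))
        have h2 := s.N0 _ (s.d' (c.adK s.d K (e.E ξ • U)))
        have h3 := s.N0 _ (s.δ (s.FK K (e.E ξ • U)))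
        have h4 := s.N0 _ (s.δ (c.adK s.d K (e.E ξ • U)))
        have h5 := s.N0 _ (s.FK K (e.E ξ • U))
        have h6 := s.N0 _ (c.adK s.d K (e.E ξ • U))
        positivity) (e.Gr_add (e.Gr_add (e.Gr_add hd (hPG _ s.d' s.d'_FO))
          (e.Gr_add hδ (hPG _ s.δ s.δ_FO))) (e.Gr_add hF hG))) (hPG _ P hP)
      refine e.Gr_le (fun ξ => ?_) htot
      set u := e.E ξ • U
      have h1 : P (s.FK K u) = P (s.FK K u - c.adK s.d K u) + P (c.adK s.d K u) := by
        rw [map_sub]; abel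
      rw [h1]
      refine (map_add_le_add _ _ _).trans (add_le_add ?_ le_rfl)
      refine (hC _ (s.FK_sub K u)).trans ?_
      refine (mul_le_mul_of_nonneg_right (le_abs_self C) ?_).trans
        (mul_le_mul_of_nonneg_left ?_ (abs_nonneg _))
      · have h1 := s.N0 _ (s.d' (s.FK K u - c.adK s.d K u))
        have h2 := s.N0 _ (s.δ (s.FK K u - c.adK s.d K u))
        have h3 := s.N0 _ (s.FK K u - c.adK s.d K u)
        positivity
      · rw [map_sub s.d', map_sub s.δ]
        exact add_le_add (add_le_add (hsub _ _ _) (hsub _ _ _)) (hsub _ _ _)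
  intro K hK U hU q' P hP
  exact main K.length K rfl hK U hU q' P hP

lemma shift (j : J) (K : List (Letter R T)) (U : A p) (hU : U ∈ e.UU) (ξ : Ξ) :
    e.fr ξ j • s.FK K (e.E ξ • U)
      = c.L (e.V j) (p + 1) (s.FK K (e.E ξ • U))
        - s.FK (Letter.vf (e.V j) :: K) (e.E ξ • U) - s.FK K (e.E ξ • c.L (e.V j) p U) := by
  have h1 : c.L (e.V j) p (e.E ξ • U)
      = e.fr ξ j • (e.E ξ • U) + e.E ξ • c.L (e.V j) p U
        + ∑ l, e.fr ξ l • (e.E ξ • ((c.dT (e.V j) (e.b l) - if j = l then 1 else 0) • U)) := by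
    rw [c.L_smul, e.E_T, Finset.sum_smul]
    have h2 : e.fr ξ j • (e.E ξ • U)
        = ∑ l, e.fr ξ l • (e.E ξ • ((if j = l then (1 : R) else 0) • U)) := by
      rw [Finset.sum_eq_single j]
      · simp
      · intro l _ hl; simp [Ne.symm hl]
      · simp
    rw [h2, add_right_comm, ← Finset.sum_add_distrib]
    congr 1
    refine Finset.sum_congr rfl fun l _ => ?_
    rw [smul_assoc, ← smul_add, ← smul_add, ← add_smul, add_sub_cancel, mul_comm, mul_smul]
  have h3 : s.FK K (c.L (e.V j) p (e.E ξ • U))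
      = e.fr ξ j • s.FK K (e.E ξ • U) + s.FK K (e.E ξ • c.L (e.V j) p U) := by
    rw [h1, map_add, map_add, map_smul, map_sum]
    rw [Finset.sum_eq_zero, add_zero]
    intro l _
    rw [map_smul, s.FK_A0 K _ (s.A0_smul _ _ _ (e.UU_A0 j l U hU)), smul_zero]
  have h4 : s.FK (Letter.vf (e.V j) :: K) (e.E ξ • U)
      = c.L (e.V j) (p + 1) (s.FK K (e.E ξ • U)) - s.FK K (c.L (e.V j) p (e.E ξ • U)) := rfl
  rw [h4, h3]; abel

lemma step_a (β : ℕ) (m : ℤ) (ha : e.Ba β m) (hb : e.Bb β (max (2 - β) m)) :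
    e.Ba β (max (1 - β) (m - 1)) := by
  intro K hK U hU
  have hj : ∀ j : J, e.Gr (max (2 - β) m)
      (fun ξ => |e.co ξ j| * s.N (p + 1) (s.FK K (e.E ξ • U))) := by
    intro j
    have h1 := hb K hK U hU (c.L (e.V j) (p + 1)) (c.FO_L _ _)
    have h2 : e.Gr (max (2 - β) m)
        (fun ξ => s.N (p + 1) (s.FK (Letter.vf (e.V j) :: K) (e.E ξ • U))) :=
      e.Gr_mono (le_max_right _ _) (ha _ (by simpa [cnt] using hK) U hU)
    have h3 : e.Gr (max (2 - β) m)
        (fun ξ => s.N (p + 1) (s.FK K (e.E ξ • c.L (e.V j) p U))) :=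
      e.Gr_mono (le_max_right _ _) (ha K hK _ (e.UU_L _ U hU))
    refine e.Gr_le (fun ξ => ?_) (e.Gr_add (e.Gr_add h1 h2) h3)
    have h4 : s.N (p + 1) (e.fr ξ j • s.FK K (e.E ξ • U))
        = 2 * Real.pi * |e.co ξ j| * s.N (p + 1) (s.FK K (e.E ξ • U)) := by
      rw [map_smul_eq_mul, e.norm_fr]
    have h5 : |e.co ξ j| * s.N (p + 1) (s.FK K (e.E ξ • U))
        ≤ s.N (p + 1) (e.fr ξ j • s.FK K (e.E ξ • U)) := by
      rw [h4, mul_assoc]
      have h6 : 0 ≤ |e.co ξ j| * s.N (p + 1) (s.FK K (e.E ξ • U)) :=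
        mul_nonneg (abs_nonneg _) (s.N0 _ _)
      have h7 : (1 : ℝ) ≤ 2 * Real.pi := by
        have := Real.pi_gt_three; linarith
      nlinarith
    refine h5.trans ?_
    rw [e.shift j K U hU ξ]
    refine (map_sub_le_add _ _ _).trans (add_le_add ?_ le_rfl)
    exact map_sub_le_add _ _ _
  have hbr : e.Gr (max (2 - β) m) (fun ξ => e.br ξ * s.N (p + 1) (s.FK K (e.E ξ • U))) := by
    have h1 := e.Gr_add (e.Gr_mono (le_max_right (2 - (β : ℤ)) m) (ha K hK U hU))
      (e.Gr_sum (Finset.univ : Finset J).toList _ fun j _ => hj j)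
    refine e.Gr_le (fun ξ => ?_) h1
    rw [Finset.sum_map_toList, ← Finset.sum_mul]
    have h2 := e.nn_le ξ
    have h3 := s.N0 _ (s.FK K (e.E ξ • U))
    unfold br
    nlinarith
  obtain ⟨C, hC0, hC⟩ := hbr
  refine ⟨C, hC0, fun ξ => ?_⟩
  have h1 := e.br_pos ξ
  have h2 : max (2 - (β : ℤ)) m = max (1 - (β : ℤ)) (m - 1) + 1 := by
    rw [← max_add_add_right]; congr 1 <;> ring
  have h3 := hC ξ
  rw [h2, zpow_add_one₀ h1.ne'] at h3
  have h4 : e.br ξ * s.N (p + 1) (s.FK K (e.E ξ • U))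
      ≤ e.br ξ * (C * e.br ξ ^ (max (1 - (β : ℤ)) (m - 1))) := by
    refine h3.trans (le_of_eq (by ring))
  exact le_of_mul_le_mul_left h4 h1

/-- the claim of section 5 -/
theorem claim (β : ℕ) : e.Ba β (1 - β) ∧ e.Bb β (2 - β) := by
  induction β with
  | zero =>
    have h0 : ∀ β', β' + 1 = 0 → e.Ba β' (1 - β') := fun β' h => absurd h (by omega)
    have h1 : e.Ba 0 1 := e.Ba_one 0
    refine ⟨by simpa using h1, ?_⟩
    have h2 := e.step_b 0 1 h1 h0
    simpa using h2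
  | succ β ih =>
    have hprev : ∀ β', β' + 1 = β + 1 → e.Ba β' (1 - β') := by
      intro β' h
      obtain rfl : β' = β := by omega
      exact ih.1
    have iter : ∀ r : ℕ, e.Ba (β + 1) (max (1 - ((β + 1 : ℕ) : ℤ)) (1 - r)) := by
      intro r
      induction r with
      | zero =>
        intro K hK U hU
        exact e.Gr_mono (by simp) (e.Ba_one (β + 1) K hK U hU)
      | succ r ihr =>
        have hb := e.step_b (β + 1) _ ihr hprev
        have ha := e.step_a (β + 1) _ ihr hb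
        intro K hK U hU
        refine e.Gr_mono ?_ (ha K hK U hU)
        push_cast
        refine max_le (le_max_left _ _) ?_
        rw [sub_le_iff_le_add]
        refine max_le ?_ ?_
        · rw [← sub_le_iff_le_add]; exact le_trans (by omega) (le_max_left _ _)
        · rw [← sub_le_iff_le_add]; exact le_trans (by omega) (le_max_right _ _)
    have ha : e.Ba (β + 1) (1 - ((β + 1 : ℕ) : ℤ)) := by
      have := iter (β + 1)
      simpa using this
    refine ⟨ha, ?_⟩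
    have hb := e.step_b (β + 1) _ ha hprev
    intro K hK U hU q' P hP
    exact e.Gr_mono (max_le le_rfl (by omega)) (hb K hK U hU P hP)

end Freq

end Pool.Agent.H56.DtN
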